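import Pool.Agent.Results.MP_ca2859_nt.FewBadPrimes
import Pool.Agent.R770.NP.Scale

/-!
# Hyperelliptic curves with few bad primes near a given point

We consider the curves `y ^ 2 = d * ∏ i, (x - a i)` with different rational `a i`, all whose differences are, up to sign,
products of powers of the same `N` integers of size at most `T`, with exponents of size at most `T ^ δ`.  Let `φ` be any
map from the tuples `a` to a metric space which takes the same value on affinely equivalent tuples (for example an
invariant of the curve in `ℝ` or `ℚ_l`, or the position of the curve in a real or `l`-adic moduli space).  For all `ξ`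
outside a set of Hausdorff dimension zero the curves with `dist (φ a) ξ ≤ κ T ^ (-τ)` have all ratios of differences of
height at most `T ^ K`, up to affine maps and twists with FINITELY many exceptions.
-/

set_option autoImplicit false

namespace Pool.Agent.Results.MP_ca2859_nt.CurvesNearAPoint

open FewBadPrimes (height IsProduct Generated Small)

/-- `a` is the image of `b` under an affine map `x ↦ r x + t`, `r ≠ 0`. -/
def Affine {n : ℕ} (a b : Fin n → ℚ) : Prop := ∃ r t : ℚ, r ≠ 0 ∧ ∀ i, a i = r * b i + t

/-- affine equivalence -/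
def st (n : ℕ) : Setoid (Fin n → ℚ) where
  r := Affine
  iseqv := {
    refl := fun _ => ⟨1, 0, one_ne_zero, fun i => by ring⟩
    symm := by
      rintro a b ⟨r, t, hr, h⟩
      refine ⟨r⁻¹, -(r⁻¹ * t), inv_ne_zero hr, fun i => ?_⟩
      rw [h i]
      field_simp
      ring
    trans := by
      rintro a b c ⟨r, t, hr, h⟩ ⟨r', t', hr', h'⟩
      refine ⟨r * r', r * t' + t, mul_ne_zero hr hr', fun i => ?_⟩
      rw [h i, h' i]
      ring }

lemma small_mono {B B' n : ℕ} (hB : B ≤ B') {a : Fin n → ℚ} (h : Small B a) : Small B' a :=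
  fun i j k hij hik => (h i j k hij hik).trans hB

lemma generated_mono {N n X X' : ℕ} {δ : ℝ} (hδ : 0 < δ) (hX : X ≤ X') {a : Fin n → ℚ} (h : Generated N δ X a) :
    Generated N δ X' a := by
  obtain ⟨h1, b, h2, h3⟩ := h
  refine ⟨h1, b, fun j => ⟨(h2 j).1, (h2 j).2.trans hX⟩, fun i j hij => ?_⟩
  obtain ⟨η, e, h4, h5, h6⟩ := h3 i j hij
  refine ⟨η, e, h4, fun l => (h5 l).trans ?_, h6⟩
  exact Real.rpow_le_rpow (by positivity) (by exact_mod_cast hX) hδ.le

/-- **Theorem.** Let `φ` be a map from the `n`-tuples of rational numbers to a metric space `X`, which takes the same value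
on affinely equivalent tuples.  There is `E ⊆ X` of Hausdorff dimension zero such that for all `ξ ∈ X` outside `E`, all
`τ > 0` and all `N` there are `K` and `δ > 0` such that for every `κ` there is a finite set `S` with the following
property: if the `a i` are different and all differences `a i - a j` are up to sign products of powers, with exponents of
size at most `T ^ δ`, of the same `N` integers between `1` and `T`, where `T ≥ 2` and `dist (φ a) ξ ≤ κ T ^ (-τ)`, then
all ratios `(a k - a i) / (a j - a i)` have height at most `T ^ K`, or `a` is affinely equivalent to a member of `S`. -/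
theorem result (n : ℕ) (X : Type) [MetricSpace X] (φ : (Fin n → ℚ) → X)
    (hφ : ∀ a b : Fin n → ℚ, Affine a b → φ a = φ b) :
    ∃ E : Set X, dimH E = 0 ∧ ∀ ξ : X, ξ ∉ E → ∀ τ : ℝ, 0 < τ → ∀ N : ℕ, ∃ (K : ℕ) (δ : ℝ), 0 < δ ∧
      ∀ κ : ℝ, ∃ S : Finset (Fin n → ℚ), ∀ (a : Fin n → ℚ) (T : ℕ), 2 ≤ T → Generated N δ T a →
        dist (φ a) ξ ≤ κ * (T : ℝ) ^ (-τ) → Small (T ^ K) a ∨ ∃ s ∈ S, Affine a s := by
  classical
  have H := fun (j N : ℕ) => FewBadPrimes.result n N (1 / ((j : ℝ) + 1)) (by positivity)
  choose K δ hδ hK using H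
  have hc : Countable (Quotient (st n)) := inferInstance
  obtain ⟨E, hE, h⟩ := R770.NP.near_dyad (Y := ℕ) (st n) hc φ hφ
    (fun j N k a => 1 ≤ k ∧ Generated N (δ j N) (2 ^ k) a ∧ ¬ Small ((2 ^ k) ^ K j N) a)
    (by
      intro j N
      refine ⟨1, fun k S hS hsep => ?_⟩
      rcases Nat.eq_zero_or_pos k with hk | hk
      · have : S = ∅ := by
          apply Finset.eq_empty_of_forall_notMem
          intro a ha
          have := (hS a ha).1
          omega
        rw [this, Finset.card_empty, Nat.cast_zero]
        positivity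
      · have h2 : 2 ≤ 2 ^ k := by
          calc 2 = 2 ^ 1 := by norm_num
            _ ≤ 2 ^ k := Nat.pow_le_pow_right (by norm_num) hk
        obtain ⟨S0, h3, h4⟩ := hK j N (2 ^ k) h2
        have h5 : S.card ≤ S0.card := by
          apply R770.NP.card_le_of_cover (st n) S S0 _ hsep
          intro a ha
          obtain ⟨-, h6, h7⟩ := hS a ha
          rcases h4 a h6 with h8 | h8
          · exact absurd h8 h7
          · exact h8
        have h6 : (S.card : ℝ) ≤ (S0.card : ℝ) := by exact_mod_cast h5
        refine h6.trans (h3.trans ?_)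
        rw [one_mul]
        push_cast
        exact le_refl _)
  refine ⟨E, hE, fun ξ hξ τ hτ N => ?_⟩
  obtain ⟨j, hj⟩ := h ξ hξ τ hτ
  refine ⟨2 * K j N, δ j N, hδ j N, fun κ => ?_⟩
  obtain ⟨S, hS⟩ := hj N (κ * 2 ^ τ)
  refine ⟨S, fun a T hT hg hd => ?_⟩
  by_cases hsm : Small (T ^ (2 * K j N)) a
  · exact Or.inl hsm
  · right
    have h1 : ¬ Small ((2 ^ (Nat.log 2 T + 1)) ^ K j N) a := by
      intro hcon
      apply hsm
      apply small_mono _ hcon
      rw [pow_mul]
      exact Nat.pow_le_pow_left (R770.NP.two_pow_le_sq hT) _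
    obtain ⟨s, hs, hs'⟩ := hS a (Nat.log 2 T + 1)
      ⟨by omega, generated_mono (hδ j N) (R770.NP.lt_two_pow T).le hg, h1⟩
      (R770.NP.dist_dyad (by omega) hτ dist_nonneg hd)
    exact ⟨s, hs, (st n).symm' hs'⟩

end Pool.Agent.Results.MP_ca2859_nt.CurvesNearAPoint
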