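import Mathlib
import Pool.Agent.R365.SZ.Main

/-!
# MP_ca2859_nt, genus one: for elliptic curves with full two-torsion over a number field, ordered by the
conductor, `Δ_E / N_E ^ 2` is at least one and bounded in probability, with the exact tail

For `g = 1` the problem asks for Szpiro's inequality `Δ_E ≤ c N_E ^ κ` for all elliptic curves over a
number field `K`. We consider ALL elliptic curves `E` over `K` with full rational two-torsion, up
to isomorphism over `K` (all quadratic twists, all heights), ordered by the norm of the conductor;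
`N_E` is its part prime to two, which is equal to the norm of the conductor up to a factor between
one and a constant depending on `K` only. `Δ_E` is the norm of the minimal discriminant, all primes
included.

1. There are between `c X ^ (2 / 3)` and `C X ^ (2 / 3)` curves with `N_E ≤ X`.
2. `N_E ^ 2 ≤ Δ_E` for all of them.
3. For every `s < 1 / 6` at most `C (T ^ (- s) + X ^ (- ν)) X ^ (2 / 3)` of the curves with `N_E ≤ X`
   satisfy `Δ_E ≥ T N_E ^ 2`, uniformly in `T ≥ 1`.
4. At least `c T ^ (- 1 / 6) X ^ (2 / 3)` of them do, uniformly in `1 ≤ T ≤ c X ^ 4`. In particular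
   (`T = c X ^ (κ - 2)`) at least `c' X ^ (1 - κ / 6)` curves have `Δ_E ≥ c N_E ^ κ`, `2 ≤ κ ≤ 6`.

So Szpiro's inequality holds with exponent two up to a factor which is bounded in probability, for
all twists at once; the proportion of the curves with `Δ_E ≥ T N_E ^ 2` is `T ^ (- 1 / 6 + o(1))`.

The proof combines a sharp form of the theorem of this project on the points of the line
`x + y + z = 0` ordered by their radical, with prescribed primes, summed over the additive primes of
the twists, with the class group and the units, and, for the lower bound, numbers divisible by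
a high power of a fixed prime.
-/

set_option autoImplicit false

open NumberField IsDedekindDomain
open scoped Classical

namespace Pool.Agent.Results.MP_ca2859_nt.GenusOneInProbability

/-- full rational two-torsion: the polynomial of the first coordinates of the points of order two
has three roots -/
def FullTwo {K : Type} [Field K] (E : WeierstrassCurve K) : Prop :=
  ∃ e : Fin 3 → K, Function.Injective e ∧
    ∀ i, 4 * e i ^ 3 + E.b₂ * e i ^ 2 + 2 * E.b₄ * e i + E.b₆ = 0

/-- good reduction at `v`: some Weierstrass equation over `K` of the curve is integral at `v` and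
has a discriminant which is a unit at `v` -/
def GoodAt {K : Type} [Field K] [NumberField K] (v : HeightOneSpectrum (𝓞 K))
    (E : WeierstrassCurve K) : Prop :=
  ∃ C : WeierstrassCurve.VariableChange K,
    v.valuation K (C • E).a₁ ≤ 1 ∧ v.valuation K (C • E).a₂ ≤ 1 ∧ v.valuation K (C • E).a₃ ≤ 1 ∧
    v.valuation K (C • E).a₄ ≤ 1 ∧ v.valuation K (C • E).a₆ ≤ 1 ∧ v.valuation K (C • E).Δ = 1

/-- semistable (good or multiplicative) reduction at `v`: some Weierstrass equation over `K` of the
curve is integral at `v` and its discriminant or its invariant `c₄` is a unit at `v` -/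
def SemistableAt {K : Type} [Field K] [NumberField K] (v : HeightOneSpectrum (𝓞 K))
    (E : WeierstrassCurve K) : Prop :=
  ∃ C : WeierstrassCurve.VariableChange K,
    v.valuation K (C • E).a₁ ≤ 1 ∧ v.valuation K (C • E).a₂ ≤ 1 ∧ v.valuation K (C • E).a₃ ≤ 1 ∧
    v.valuation K (C • E).a₄ ≤ 1 ∧ v.valuation K (C • E).a₆ ≤ 1 ∧
    (v.valuation K (C • E).Δ = 1 ∨ v.valuation K (C • E).c₄ = 1)

/-- the product of the norms of the primes `v` not above two of bad reduction -/
noncomputable def badProduct {K : Type} [Field K] [NumberField K] (E : WeierstrassCurve K) : ℝ :=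
  ∏ᶠ v ∈ {v : HeightOneSpectrum (𝓞 K) | ¬ GoodAt v E ∧ v.valuation K 2 = 1},
    (Ideal.absNorm v.asIdeal : ℝ)

/-- the part prime to two of the norm of the conductor of a curve with full two-torsion: the product
over the primes `v` not above two of `N(v)` for multiplicative and `N(v) ^ 2` for additive
reduction -/
noncomputable def cond {K : Type} [Field K] [NumberField K] (E : WeierstrassCurve K) : ℝ :=
  badProduct E *
  ∏ᶠ v ∈ {v : HeightOneSpectrum (𝓞 K) | ¬ SemistableAt v E ∧ v.valuation K 2 = 1},
    (Ideal.absNorm v.asIdeal : ℝ)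

/-- the equation of `E` is integral at `v` -/
def IsIntegralAt {K : Type} [Field K] [NumberField K] (v : HeightOneSpectrum (𝓞 K))
    (E : WeierstrassCurve K) : Prop :=
  v.valuation K E.a₁ ≤ 1 ∧ v.valuation K E.a₂ ≤ 1 ∧ v.valuation K E.a₃ ≤ 1 ∧
    v.valuation K E.a₄ ≤ 1 ∧ v.valuation K E.a₆ ≤ 1

/-- the exponent of `v` in the minimal discriminant: the minimum of the valuations of the
discriminants of the equations of the curve over `K` which are integral at `v` -/
noncomputable def discExponent {K : Type} [Field K] [NumberField K] (v : HeightOneSpectrum (𝓞 K))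
    (E : WeierstrassCurve K) : ℕ :=
  sInf {m : ℕ | ∃ C : WeierstrassCurve.VariableChange K, IsIntegralAt v (C • E) ∧
    v.valuation K (C • E).Δ = WithZero.exp (-(m : ℤ))}

/-- the norm `Δ_E` of the minimal discriminant, all primes included -/
noncomputable def discriminant {K : Type} [Field K] [NumberField K] (E : WeierstrassCurve K) : ℝ :=
  ∏ᶠ v : HeightOneSpectrum (𝓞 K), (Ideal.absNorm v.asIdeal : ℝ) ^ discExponent v E

/-- the Weierstrass curves over `K` up to isomorphism over `K` (changes of variables) -/
abbrev IsoClass (K : Type) [Field K] : Type :=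
  Quotient (MulAction.orbitRel (WeierstrassCurve.VariableChange K) (WeierstrassCurve K))

/-- the isomorphism classes of the elliptic curves over `K` with full rational two-torsion and
conductor (outside two) at most `X` -/
def Curves (K : Type) [Field K] [NumberField K] (X : ℝ) : Set (IsoClass K) :=
  {q | ∃ E : WeierstrassCurve K, Quotient.mk'' E = q ∧ E.Δ ≠ 0 ∧ FullTwo E ∧ cond E ≤ X}

/-- the classes of the curves with conductor at most `X` and `Δ_E ≥ T N_E ^ 2` -/
def Large (K : Type) [Field K] [NumberField K] (T X : ℝ) : Set (IsoClass K) :=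
  {q | ∃ E : WeierstrassCurve K, Quotient.mk'' E = q ∧ E.Δ ≠ 0 ∧ FullTwo E ∧ cond E ≤ X ∧
    T * cond E ^ 2 ≤ discriminant E}

/-- **The ratio `Δ_E / N_E ^ 2` is bounded in probability.** -/
theorem result (K : Type) [Field K] [NumberField K] :
    (∃ c C X₀ : ℝ, 0 < c ∧ ∀ X : ℝ, X₀ ≤ X → (Curves K X).Finite ∧
      c * X ^ (2 / 3 : ℝ) ≤ ((Curves K X).ncard : ℝ) ∧
      ((Curves K X).ncard : ℝ) ≤ C * X ^ (2 / 3 : ℝ)) ∧
    (∀ E : WeierstrassCurve K, E.Δ ≠ 0 → FullTwo E → cond E ^ 2 ≤ discriminant E) ∧
    (∀ s : ℝ, 0 ≤ s → s < 1 / 6 → ∃ C ν : ℝ, 0 < ν ∧ ∀ X T : ℝ, 1 ≤ X → 1 ≤ T →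
      ((Large K T X).ncard : ℝ) ≤ C * (T ^ (-s) + X ^ (-ν)) * X ^ (2 / 3 : ℝ)) ∧
    (∃ c : ℝ, 0 < c ∧ ∀ X T : ℝ, 0 ≤ X → 1 ≤ T → T ≤ c * X ^ 4 →
      c * T ^ (-(1 / 6) : ℝ) * X ^ (2 / 3 : ℝ) ≤ ((Large K T X).ncard : ℝ)) := by
  refine ⟨Pool.Agent.R365.ST.sh_all K, fun E hE h2 => Pool.Agent.R365.SZ.md_ge hE h2,
    fun s hs0 hs1 => ?_, ?_⟩
  · obtain ⟨C, ν, -, hν, h⟩ := Pool.Agent.R365.SZ.big_upper K s hs0 hs1
    exact ⟨C, ν, hν, h⟩
  · obtain ⟨c, hc, h⟩ := Pool.Agent.R365.SZ.big_lower K
    exact ⟨c, hc, fun X T hX hT hTX => h X T hT hTX hX⟩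

end Pool.Agent.Results.MP_ca2859_nt.GenusOneInProbability
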