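import Pool.Agent.Results.MP_ca2859_nt.HeightWindows
import Pool.Agent.R482.ST.Star

/-!
# The discriminant bound for all hyperelliptic curves of height near powers, orbits and other sequences

Hyperelliptic curves of genus `g ≥ 2` over a number field `K` all of whose Weierstrass points are rational: the twists by
`d ∈ K*` of `y² = X ∏ (X - x_i)`, where `x` is a point of `P^{2g-1}(K)` with `0, x_i` different.
Let `f_n`, `n = 0, 1, 2, …`, be positive functions on `(a, ∞)`, `a ≥ 0`, such that `f_n(t) / t` is nondecreasing, and such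
that the sequence `f_n(t)` has exponent of convergence at most `τ` for each `t > a`: for instance `f_n(t) = t ^ (v_n)` for
exponents `v_n ≥ 1` (`τ = 0`; all powers, the powers `t ^ (3 ^ n)` of Mills, …), the orbits `f_n(t) = g (g (⋯ g (t)))` of any
map `g` with `g(t) > t` and `g(t) / t` nondecreasing (`τ = 0`; for instance of `t² + c`), and `f_n(t) = v_n t`.
Let `θ < 1`. For all `α > a` outside a small set, every `c'` and all but finitely many `n`, the inequality `Δ_C ≤ c M_C ^ κ`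
holds for ALL twists of ALL such configurations `x` with `|H_K(x) ^ (2g) - f_n(α)| ≤ c' f_n(α) ^ θ`, if `κ > 4 g + 4`; if
`κ < 4 g + 4` it fails for some twist of EACH such `x`.
-/

set_option autoImplicit false

open NumberField Height Finset LinearAlgebra.Projectivization Polynomial
open Pool.Agent.W318 (discNorm badNorm)

namespace Pool.Agent.Results.MP_ca2859_nt.StarshapedHeights

open HeightWindows (roots curve expo expoBelow count_of)

/-- the functions `f n` are positive on `(a, ∞)`, `a ≥ 0`, and `f n x / x` is nondecreasing there -/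
def Starshaped (a : ℝ) (f : ℕ → ℝ → ℝ) : Prop :=
  0 ≤ a ∧ ∀ n : ℕ, ∀ x y : ℝ, a < x → x ≤ y → 0 < f n x ∧ f n x / x ≤ f n y / y

/-- for each `x > a` the exponent of convergence of the sequence `f n x` is at most `τ` -/
def ExpLe (a : ℝ) (f : ℕ → ℝ → ℝ) (τ : ℝ) : Prop :=
  ∀ x : ℝ, a < x → ∀ t : ℝ, τ < t → Summable (fun n : ℕ => (f n x) ^ (-t))

/-- **Theorem.** Let `f` be starshaped functions on `(a, ∞)` of exponent of convergence at most `τ ≥ 0`, `θ < 1`, `K` a number
field, `g ≥ 2` and `c > 0`. (1) If `κ > 4 g + 4` there is a set `E` of Hausdorff dimension at most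
`(expo g κ / (2 g) + τ) / (1 - θ)`, where `expo g κ < 2 g`, such that for each `α > a` outside `E`, each `c'` and all but
finitely many `k`, for ALL configurations `P` with different roots and `|H_K(P) ^ (2 g) - f_k(α)| ≤ c' f_k(α) ^ θ` and ALL
twists `d` the inequality `Δ_C ≤ c M_C ^ κ` holds. (2) If `0 ≤ κ < 4 g + 4` there is a set `E` of dimension at most
`(expoBelow g κ / (2 g) + τ) / (1 - θ)`, where `expoBelow g κ < 2 g`, such that for each `α > a` outside `E`, each `c'` and all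
but finitely many `k`, for EACH such configuration the inequality fails for some twist. (3) The functions `v_n x`, `v_n > 0`, are starshaped on `(0, ∞)`, of exponent `τ` if `v` has exponent of convergence at most
`τ`; the functions `x ^ (v_n)`, `v_n ≥ 1`, are starshaped on `(1, ∞)`, of exponent `0` if the sums of `exp (-t v_n)` converge
for `t > 0`; and the iterates of a map `g` with `g(x) > x` for `x > a` and `g(x) / x` nondecreasing are starshaped on
`(a, ∞)`, of exponent `0`. -/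
theorem result :
    (∀ (K : Type) [Field K] [NumberField K] (g n : ℕ) (κ c τ θ a : ℝ) (f : ℕ → ℝ → ℝ), 2 ≤ g → n + 1 = 2 * g →
      4 * g + 4 < κ → 0 < c → Starshaped a f → 0 ≤ τ → ExpLe a f τ → θ < 1 →
      expo g κ < 2 * g ∧
      ∃ E : Set ℝ, dimH E ≤ ENNReal.ofReal ((expo g κ / (2 * g) + τ) / (1 - θ)) ∧
        ∀ α : ℝ, a < α → α ∉ E → ∀ c' : ℝ, ∃ k₀ : ℕ, ∀ k : ℕ, k₀ ≤ k → ∀ P : ℙ K (Fin (n + 1) → K),
          Function.Injective (roots P.rep) → |P.mulHeight ^ (2 * g) - f k α| ≤ c' * (f k α) ^ θ →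
            ∀ d : K, d ≠ 0 →
              (discNorm g (curve d P.rep) : ℝ) ≤ c * (badNorm g (curve d P.rep) : ℝ) ^ κ) ∧
    (∀ (K : Type) [Field K] [NumberField K] (g n : ℕ) (κ c τ θ a : ℝ) (f : ℕ → ℝ → ℝ), 2 ≤ g → n + 1 = 2 * g →
      0 ≤ κ → κ < 4 * g + 4 → 0 < c → Starshaped a f → 0 ≤ τ → ExpLe a f τ → θ < 1 →
      expoBelow g κ < 2 * g ∧
      ∃ E : Set ℝ, dimH E ≤ ENNReal.ofReal ((expoBelow g κ / (2 * g) + τ) / (1 - θ)) ∧
        ∀ α : ℝ, a < α → α ∉ E → ∀ c' : ℝ, ∃ k₀ : ℕ, ∀ k : ℕ, k₀ ≤ k → ∀ P : ℙ K (Fin (n + 1) → K),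
          Function.Injective (roots P.rep) → |P.mulHeight ^ (2 * g) - f k α| ≤ c' * (f k α) ^ θ →
            ∃ d : K, d ≠ 0 ∧
              c * (badNorm g (curve d P.rep) : ℝ) ^ κ < (discNorm g (curve d P.rep) : ℝ)) ∧
    (∀ (v : ℕ → ℝ) (τ : ℝ), (∀ n, 0 < v n) → (∀ t : ℝ, τ < t → Summable (fun n : ℕ => (v n) ^ (-t))) →
      Starshaped 0 (fun n x => v n * x) ∧ ExpLe 0 (fun n x => v n * x) τ) ∧
    (∀ v : ℕ → ℝ, (∀ n, 1 ≤ v n) → (∀ t : ℝ, 0 < t → Summable fun n : ℕ => Real.exp (-(t * v n))) →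
      Starshaped 1 (fun n x => x ^ (v n)) ∧ ExpLe 1 (fun n x => x ^ (v n)) 0) ∧
    (∀ (a : ℝ) (g : ℝ → ℝ), 0 ≤ a → (∀ x y : ℝ, a < x → x ≤ y → g x / x ≤ g y / y) → (∀ x : ℝ, a < x → x < g x) →
      Starshaped a (fun n x => g^[n] x) ∧ ExpLe a (fun n x => g^[n] x) 0) := by
  refine ⟨fun K _ _ g n κ c τ θ a f hg hn hκ hc hf hτ hE hθ1 => ?_,
    fun K _ _ g n κ c τ θ a f hg hn hκ0 hκ hc hf hτ hE hθ1 => ?_,
    Pool.Agent.R482.ST.ex_mul, Pool.Agent.R482.ST.ex_pow,
    Pool.Agent.R482.ST.ex_orbit⟩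
  · obtain ⟨h1, h2⟩ := (RationalWeierstrassPoints.result K g n hg hn κ).1 hκ
    have hg2 : (2 : ℝ) ≤ g := by exact_mod_cast hg
    have hs : 0 ≤ expo g κ := by
      have hk : 0 < κ - 4 * g - 2 := by linarith
      unfold expo
      refine le_min ((by linarith : (0 : ℝ) ≤ 2 * g - 1 / 2).trans (le_max_left _ _)) (le_min ?_ ?_)
      · positivity
      · have : (0 : ℝ) ≤ 2 * g - 1 := by linarith
        positivity
    refine ⟨h1, ?_⟩
    set S : Set (ℙ K (Fin (n + 1) → K)) := {P | Function.Injective (roots P.rep) ∧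
      ∃ d : K, d ≠ 0 ∧ c * (badNorm g (curve d P.rep) : ℝ) ^ κ < discNorm g (curve d P.rep)} with hS
    obtain ⟨E, h3, h4⟩ := Pool.Agent.R482.ST.windows S (fun P => P.mulHeight ^ (2 * g)) hf hτ hE
      (s := expo g κ / (2 * g)) (by positivity) hθ1
      (count_of hg S (fun B => RationalWeierstrassPoints.exceptional K g n κ c B) (expo g κ)
        (fun δ hδ => h2 c δ hc hδ) (fun P hP B hB hB2 => ⟨hP.1, hB2, hP.2⟩))
    refine ⟨E, h3, fun α hα hαE c' => ?_⟩
    obtain ⟨k₀, hk⟩ := h4 α hα hαE c'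
    refine ⟨k₀, fun k hk1 P hP hw d hd => ?_⟩
    by_contra hcon
    push Not at hcon
    exact absurd (hk k hk1 P ⟨hP, d, hd, hcon⟩) (not_lt.2 hw)
  · obtain ⟨h1, h2⟩ := (RationalWeierstrassPoints.result K g n hg hn κ).2 hκ0 hκ
    have hg2 : (2 : ℝ) ≤ g := by exact_mod_cast hg
    have hs : 0 ≤ expoBelow g κ := by
      unfold expoBelow
      exact (by linarith : (0 : ℝ) ≤ 2 * g - 1 / 2).trans (le_max_left _ _)
    refine ⟨h1, ?_⟩
    set S : Set (ℙ K (Fin (n + 1) → K)) := {P | Function.Injective (roots P.rep) ∧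
      ∀ d : K, d ≠ 0 → (discNorm g (curve d P.rep) : ℝ) ≤ c * (badNorm g (curve d P.rep) : ℝ) ^ κ} with hS
    obtain ⟨E, h3, h4⟩ := Pool.Agent.R482.ST.windows S (fun P => P.mulHeight ^ (2 * g)) hf hτ hE
      (s := expoBelow g κ / (2 * g)) (by positivity) hθ1
      (count_of hg S (fun B => RationalWeierstrassPoints.uniform K g n κ c B) (expoBelow g κ)
        (fun δ hδ => h2 c δ hc hδ) (fun P hP B hB hB2 => ⟨hP.1, hB2, hP.2⟩))
    refine ⟨E, h3, fun α hα hαE c' => ?_⟩
    obtain ⟨k₀, hk⟩ := h4 α hα hαE c'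
    refine ⟨k₀, fun k hk1 P hP hw => ?_⟩
    by_contra hcon
    push Not at hcon
    exact absurd (hk k hk1 P ⟨hP, hcon⟩) (not_lt.2 hw)

end Pool.Agent.Results.MP_ca2859_nt.StarshapedHeights
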