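import Pool.Agent.R942.HX.Rand
import Pool.Agent.Results.MP_ca2859_nt.HeightWindows

/-!
# The discriminant bound for all hyperelliptic curves near typical points

Hyperelliptic curves of genus `g ≥ 2` over a number field `K` all of whose Weierstrass points are rational: the
twists by `d ∈ K*` of `y² = X ∏ (X - x_i)`, where `x` is a point of `P^{2g-1}(K)` with `0, x_i` different. Let `φ`
be ANY map from the points of `P^{2g-1}(K)` to a metric space `Y`, for instance the inclusion in
`P^{2g-1}(K_v)` for a place `v`, the embedding in a product of several of these, or a map to the moduli space.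
Let `κ > 4 g + 4` and `e = expo (g, κ) < 2 g`.

(1) Let `μ` be a measure on `Y` with `μ (closed ball of radius r) ≤ A r ^ s`. If `s v > e`, for `μ`-almost every `z`
the inequality `Δ_C ≤ c M_C ^ κ` holds for ALL twists of all but finitely many configurations `P` with
`dist (φ (P), z) ≤ H_K (P) ^ (-v)`. More generally, almost surely it holds for all twists of all but finitely many
configurations `P` with `dist (φ_i (P), X_i) ≤ H_K (P) ^ (-v)` for some `i` in a set `F (P)` of at most
`L H_K (P) ^ u` indices, where `X_i` are random points of `Y` with any joint distribution and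
`P (dist (X_i, z) ≤ r) ≤ A r ^ s`, if `s v - u > e`. (For `Y = P^{2g-1}(K_v)` every `z` has infinitely many `P`
with `dist (P, z) ≤ C H_K (P) ^ (-v)` for `s v = 2 g > e`, by Dirichlet's theorem.)

(2) For all `z` in `Y` outside a set of Hausdorff dimension at most `e / v` the inequality holds for ALL twists of
all but finitely many configurations `P` with `dist (φ (P), z) ≤ H_K (P) ^ (-v)`.

(3) If `0 ≤ κ < 4 g + 4`, the same holds with `expoBelow (g, κ) < 2 g` and the opposite conclusion: the inequality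
fails for some twist of EACH of these configurations, with finitely many exceptions.
-/

set_option autoImplicit false

open NumberField Height Finset LinearAlgebra.Projectivization Polynomial
open Pool.Agent.W318 (discNorm badNorm)

namespace Pool.Agent.Results.MP_ca2859_nt.TypicalPoints

open HeightWindows (roots curve expo expoBelow count_of)
open Pool.Agent.R942.HX MeasureTheory

section
variable {K : Type} [Field K] [NumberField K] {n : ℕ}

/-- `Δ_C ≤ c M_C ^ κ` for all twists of the configuration `P` -/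
def AllTwists (g : ℕ) (κ c : ℝ) (P : ℙ K (Fin (n + 1) → K)) : Prop :=
  ∀ d : K, d ≠ 0 → (discNorm g (curve d P.rep) : ℝ) ≤ c * (badNorm g (curve d P.rep) : ℝ) ^ κ

/-- `Δ_C > c M_C ^ κ` for some twist of the configuration `P` -/
def SomeTwistFails (g : ℕ) (κ c : ℝ) (P : ℙ K (Fin (n + 1) → K)) : Prop :=
  ∃ d : K, d ≠ 0 ∧ c * (badNorm g (curve d P.rep) : ℝ) ^ κ < (discNorm g (curve d P.rep) : ℝ)

/-- For every map to a metric space, random points in it, and `e`: with finitely many exceptions the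
configurations near these points have the property `Q` -/
def Typical (K : Type) [Field K] [NumberField K] (n : ℕ) (e : ℝ)
    (Q : ℙ K (Fin (n + 1) → K) → Prop) : Prop :=
  (∀ (Y Ω ι : Type) [PseudoMetricSpace Y] [MeasurableSpace Ω] (P : Measure Ω) (X : ι → Ω → Y)
    (φ : ι → ℙ K (Fin (n + 1) → K) → Y) (F : ℙ K (Fin (n + 1) → K) → Finset ι) (A L s u v : ℝ),
    e < s * v - u →
    (∀ i y r, 0 < r → P {ω | dist (X i ω) y ≤ r} ≤ ENNReal.ofReal (A * r ^ s)) →
    (∀ x, ((F x).card : ℝ) ≤ L * x.mulHeight ^ u) →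
    ∀ᵐ ω ∂P, {x : ℙ K (Fin (n + 1) → K) | Function.Injective (roots x.rep) ∧
      (∃ i ∈ F x, dist (X i ω) (φ i x) ≤ x.mulHeight ^ (-v)) ∧ ¬ Q x}.Finite) ∧
  (∀ (Y : Type) [PseudoMetricSpace Y] [MeasurableSpace Y] (μ : Measure Y)
    (φ : ℙ K (Fin (n + 1) → K) → Y) (A s v : ℝ), e < s * v →
    (∀ y r, 0 < r → μ (Metric.closedBall y r) ≤ ENNReal.ofReal (A * r ^ s)) →
    ∀ᵐ z ∂μ, {x : ℙ K (Fin (n + 1) → K) | Function.Injective (roots x.rep) ∧
      dist (φ x) z ≤ x.mulHeight ^ (-v) ∧ ¬ Q x}.Finite) ∧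
  ∀ (Y : Type) [MetricSpace Y] (φ : ℙ K (Fin (n + 1) → K) → Y) (v : ℝ), 0 < v →
    dimH {z : Y | {x : ℙ K (Fin (n + 1) → K) | Function.Injective (roots x.rep) ∧
      dist (φ x) z ≤ x.mulHeight ^ (-v) ∧ ¬ Q x}.Infinite} ≤ ENNReal.ofReal (e / v)

lemma one_le (P : ℙ K (Fin (n + 1) → K)) : 1 ≤ P.mulHeight := by
  rw [← P.mk_rep, Projectivization.mulHeight_mk]
  exact Height.one_le_mulHeight _

theorem typical_of {g : ℕ} (hg : 2 ≤ g) {e : ℝ} (he : 0 ≤ e) (Q : ℙ K (Fin (n + 1) → K) → Prop)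
    (hc : ∀ ε : ℝ, 0 < ε → ∃ C : ℝ, ∀ X : ℝ, 1 ≤ X →
      {P : ℙ K (Fin (n + 1) → K) | P ∈ {P : ℙ K (Fin (n + 1) → K) |
        Function.Injective (roots P.rep) ∧ ¬ Q P} ∧ P.mulHeight ^ (2 * g) ≤ X}.Finite ∧
      ({P : ℙ K (Fin (n + 1) → K) | P ∈ {P : ℙ K (Fin (n + 1) → K) |
        Function.Injective (roots P.rep) ∧ ¬ Q P} ∧ P.mulHeight ^ (2 * g) ≤ X}.ncard : ℝ) ≤
          C * X ^ (e / (2 * g) + ε)) :
    Typical K n e Q := by
  have hg0 : (0 : ℝ) < 2 * g := by
    have : (0 : ℝ) < g := by exact_mod_cast (by omega : 0 < g)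
    linarith
  have hS : Sparse (fun P : ℙ K (Fin (n + 1) → K) => P.mulHeight ^ (2 * g))
      {P | Function.Injective (roots P.rep) ∧ ¬ Q P} (e / (2 * g)) :=
    ⟨fun P _ => one_le_pow₀ (one_le P), hc⟩
  have h0 : 0 ≤ e / (2 * g) := by positivity
  have hpow : ∀ (P : ℙ K (Fin (n + 1) → K)) (t : ℝ),
      (P.mulHeight ^ (2 * g)) ^ (t / (2 * g)) = P.mulHeight ^ t := by
    intro P t
    rw [← Real.rpow_natCast, ← Real.rpow_mul (le_trans zero_le_one (one_le P))]
    congr 1
    push_cast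
    field_simp
  have key : ∀ (Y Ω ι : Type) [PseudoMetricSpace Y] [MeasurableSpace Ω] (P : Measure Ω)
      (X : ι → Ω → Y) (φ : ι → ℙ K (Fin (n + 1) → K) → Y) (F : ℙ K (Fin (n + 1) → K) → Finset ι)
      (A L s u v : ℝ), e < s * v - u →
      (∀ i y r, 0 < r → P {ω | dist (X i ω) y ≤ r} ≤ ENNReal.ofReal (A * r ^ s)) →
      (∀ x, ((F x).card : ℝ) ≤ L * x.mulHeight ^ u) →
      ∀ᵐ ω ∂P, {x : ℙ K (Fin (n + 1) → K) | Function.Injective (roots x.rep) ∧
        (∃ i ∈ F x, dist (X i ω) (φ i x) ≤ x.mulHeight ^ (-v)) ∧ ¬ Q x}.Finite := by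
    intro Y Ω ι _ _ P X φ F A L s u v hv hX hF
    have h1 := hS.random h0 P X φ F (A := A) (K := L) (s := s) (u := u / (2 * g)) (v := v / (2 * g))
      hX (fun x _ => by rw [hpow]; exact hF x) (by
        rw [← mul_div_assoc, ← sub_div]
        exact div_lt_div_of_pos_right hv hg0)
    filter_upwards [h1] with ω hω
    refine hω.subset ?_
    rintro x ⟨h2, ⟨i, h3, h4⟩, h5⟩
    refine ⟨⟨h2, h5⟩, i, h3, ?_⟩
    rw [← neg_div, hpow]
    exact h4
  refine ⟨key, fun Y _ _ μ φ A s v hv hμ => ?_, fun Y _ φ v hv => ?_⟩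
  · have h1 := key Y Y Unit μ (fun _ z => z) (fun _ x => φ x) (fun _ => {()}) A 1 s 0 v (by linarith)
      (fun i y r hr => hμ y r hr) (fun x => by simp)
    filter_upwards [h1] with z hz
    refine hz.subset ?_
    rintro x ⟨h2, h3, h4⟩
    refine ⟨h2, ⟨(), by simp, ?_⟩, h4⟩
    rw [dist_comm]
    exact h3
  · have h1 := hS.dim_map h0 φ (τ := v / (2 * g)) (by positivity)
    have h2 : e / (2 * g) / (v / (2 * g)) = e / v := by
      field_simp
    rw [h2] at h1
    refine le_trans (dimH_mono fun z hz => ?_) h1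
    simp only [Set.mem_ofPred_eq] at hz ⊢
    intro hfin
    apply hz
    refine hfin.subset ?_
    rintro x ⟨h3, h4, h5⟩
    refine ⟨⟨h3, h5⟩, ?_⟩
    rw [← neg_div, hpow]
    exact h4

end

/-- **Theorem.** See the beginning of the file. -/
theorem result (K : Type) [Field K] [NumberField K] (g n : ℕ) (κ c : ℝ) (hg : 2 ≤ g)
    (hn : n + 1 = 2 * g) (hc : 0 < c) :
    (4 * g + 4 < κ → expo g κ < 2 * g ∧ Typical K n (expo g κ) (AllTwists g κ c)) ∧
    (0 ≤ κ → κ < 4 * g + 4 → expoBelow g κ < 2 * g ∧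
      Typical K n (expoBelow g κ) (SomeTwistFails g κ c)) := by
  refine ⟨fun hκ => ?_, fun hκ0 hκ => ?_⟩
  · obtain ⟨h1, h2⟩ := (RationalWeierstrassPoints.result K g n hg hn κ).1 hκ
    have hg2 : (2 : ℝ) ≤ g := by exact_mod_cast hg
    have hs : 0 ≤ expo g κ := by
      have hk : 0 < κ - 4 * g - 2 := by linarith
      unfold expo
      refine le_min ((by linarith : (0 : ℝ) ≤ 2 * g - 1 / 2).trans (le_max_left _ _)) (le_min ?_ ?_)
      · positivity
      · have : (0 : ℝ) ≤ 2 * g - 1 := by linarith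
        positivity
    refine ⟨h1, typical_of hg hs _ ?_⟩
    exact count_of hg _ (fun B => RationalWeierstrassPoints.exceptional K g n κ c B) (expo g κ)
      (fun δ hδ => h2 c δ hc hδ) (fun P hP B hB hB2 => by
        obtain ⟨h3, h4⟩ := hP
        unfold AllTwists at h4
        push Not at h4
        exact ⟨h3, hB2, h4⟩)
  · obtain ⟨h1, h2⟩ := (RationalWeierstrassPoints.result K g n hg hn κ).2 hκ0 hκ
    have hg2 : (2 : ℝ) ≤ g := by exact_mod_cast hg
    have hs : 0 ≤ expoBelow g κ := by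
      unfold expoBelow
      exact (by linarith : (0 : ℝ) ≤ 2 * g - 1 / 2).trans (le_max_left _ _)
    refine ⟨h1, typical_of hg hs _ ?_⟩
    exact count_of hg _ (fun B => RationalWeierstrassPoints.uniform K g n κ c B) (expoBelow g κ)
      (fun δ hδ => h2 c δ hc hδ) (fun P hP B hB hB2 => by
        obtain ⟨h3, h4⟩ := hP
        unfold SomeTwistFails at h4
        push Not at h4
        exact ⟨h3, hB2, h4⟩)

end Pool.Agent.Results.MP_ca2859_nt.TypicalPoints
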